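import Mathlib

/-!
Definitions for `MP_2f2576_co` (no pied circuit graphs and no lonely colour graphs).
-/

namespace Pool.Agent.H1.Lonely

universe u

/-- Condition (i) for an edge colouring `col` of `X` : every vertex meets at most two edges of
each colour. -/
def AtMostTwo {V : Type u} {C : Type u} (X : SimpleGraph V) (col : Sym2 V → C) : Prop :=
  ∀ (v : V) (c : C), {w : V | X.Adj v w ∧ col s(v, w) = c}.encard ≤ 2

/-- `X` is a no pied circuit graph: some edge colouring satisfies (i) and, in every circuit, at
least two edges have the same colour. -/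
def NoPiedCircuit {V : Type u} (X : SimpleGraph V) : Prop :=
  ∃ (C : Type u) (col : Sym2 V → C), AtMostTwo X col ∧
    ∀ (v : V) (p : X.Walk v v), p.IsCycle →
      ∃ e ∈ p.edges, ∃ e' ∈ p.edges, e ≠ e' ∧ col e = col e'

/-- `X` is a no lonely colour graph: some edge colouring satisfies (i) and, in every circuit, each
edge has the same colour as some other edge of that circuit. -/
def NoLonelyColour {V : Type u} (X : SimpleGraph V) : Prop :=
  ∃ (C : Type u) (col : Sym2 V → C), AtMostTwo X col ∧
    ∀ (v : V) (p : X.Walk v v), p.IsCycle →
      ∀ e ∈ p.edges, ∃ e' ∈ p.edges, e' ≠ e ∧ col e' = col e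

end Pool.Agent.H1.Lonely
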