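import Mathlib
import Pool.Agent.H1.Lonely.Defs

/-!
No lonely colour graphs of arbitrarily large chromatic number.
-/

namespace Pool.Agent.H1.Lonely

open Finset

/-- pairs of distinct elements -/
abbrev Pr (N : ℕ) : Type := {q : Fin N × Fin N // q.1 ≠ q.2}

/-- the points -/
abbrev Pt (m N : ℕ) : Type := Fin (m + 1) → Fin N

/-- the axis-parallel lines -/
abbrev Ln (m N : ℕ) : Type := Fin (m + 1) × (Fin m → Fin N)

/-- the point of the line `l` with coordinate `a` -/
def pt {m N : ℕ} (l : Ln m N) (a : Fin N) : Pt m N :=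
  Fin.insertNth (α := fun _ => Fin N) l.1 a l.2

theorem pt_same {m N : ℕ} (l : Ln m N) (a : Fin N) : pt l a l.1 = a := by
  simp [pt]

theorem pt_other {m N : ℕ} (l : Ln m N) (a b : Fin N) (i : Fin (m + 1)) (h : i ≠ l.1) :
    pt l a i = pt l b i := by
  obtain ⟨j, rfl⟩ := Fin.exists_succAbove_eq h
  simp [pt]

theorem pt_diff {m N : ℕ} (l : Ln m N) {a b : Fin N} (hab : a ≠ b) (i : Fin (m + 1)) :
    pt l a i ≠ pt l b i ↔ i = l.1 := by
  constructor
  · intro h
    by_contra hi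
    exact h (pt_other l a b i hi)
  · rintro rfl
    rw [pt_same, pt_same]
    exact hab

/-- One edge is chosen on each line. -/
def gr {m N : ℕ} (e : Ln m N → Pr N) : SimpleGraph (Pt m N) where
  Adj x x' := ∃ l, (x = pt l (e l).1.1 ∧ x' = pt l (e l).1.2) ∨
    (x' = pt l (e l).1.1 ∧ x = pt l (e l).1.2)
  symm := ⟨by
    rintro x x' ⟨l, h | h⟩
    · exact ⟨l, Or.inr h⟩
    · exact ⟨l, Or.inl h⟩⟩
  loopless := ⟨by
    rintro x ⟨l, ⟨h1, h2⟩ | ⟨h1, h2⟩⟩
    · have := congrFun (h1.symm.trans h2) l.1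
      rw [pt_same, pt_same] at this
      exact (e l).2 this
    · have := congrFun (h1.symm.trans h2) l.1
      rw [pt_same, pt_same] at this
      exact (e l).2 this⟩

/-- the colour of an edge: the set of coordinates in which the ends differ -/
def col (m N : ℕ) : Sym2 (Pt m N) → Set (Fin (m + 1)) :=
  Sym2.lift ⟨fun x x' => {c | x c ≠ x' c}, by
    intro x x'
    ext c
    exact ne_comm⟩

theorem col_mk {m N : ℕ} (x x' : Pt m N) : col m N s(x, x') = {c | x c ≠ x' c} := rfl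

theorem col_edge {m N : ℕ} (l : Ln m N) {a b : Fin N} (hab : a ≠ b) :
    col m N s(pt l a, pt l b) = {l.1} := by
  rw [col_mk]
  ext i
  exact pt_diff l hab i

theorem atMostTwo {m N : ℕ} (e : Ln m N → Pr N) : AtMostTwo (gr e) (col m N) := by
  intro v D
  by_cases hE : {w : Pt m N | (gr e).Adj v w ∧ col m N s(v, w) = D} = ∅
  · rw [hE]; simp
  obtain ⟨w0, ⟨l0, hl0⟩, hc0⟩ := Set.nonempty_iff_ne_empty.mpr hE
  have hD : D = {l0.1} := by
    rw [← hc0]
    rcases hl0 with ⟨h1, h2⟩ | ⟨h1, h2⟩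
    · rw [h1, h2, col_edge l0 (e l0).2]
    · rw [h1, h2, col_edge l0 (e l0).2.symm]
  have hv0 : ∃ a, v = pt l0 a := by
    rcases hl0 with ⟨h1, h2⟩ | ⟨h1, h2⟩
    · exact ⟨_, h1⟩
    · exact ⟨_, h2⟩
  obtain ⟨a0, ha0⟩ := hv0
  have hsub : {w : Pt m N | (gr e).Adj v w ∧ col m N s(v, w) = D} ⊆
      {pt l0 (e l0).1.1, pt l0 (e l0).1.2} := by
    rintro w ⟨⟨l, hl⟩, hc⟩
    have hD' : D = {l.1} := by
      rw [← hc]
      rcases hl with ⟨h1, h2⟩ | ⟨h1, h2⟩
      · rw [h1, h2, col_edge l (e l).2]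
      · rw [h1, h2, col_edge l (e l).2.symm]
    have h11 : l.1 = l0.1 := by
      have : ({l.1} : Set (Fin (m + 1))) = {l0.1} := hD'.symm.trans hD
      exact Set.singleton_injective this
    have hv : ∃ a, v = pt l a := by
      rcases hl with ⟨h1, h2⟩ | ⟨h1, h2⟩
      · exact ⟨_, h1⟩
      · exact ⟨_, h2⟩
    obtain ⟨a, ha⟩ := hv
    have hll : l = l0 := by
      refine Prod.ext h11 ?_
      funext j
      obtain ⟨c, y⟩ := l
      obtain ⟨c0, y0⟩ := l0
      simp only at h11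
      subst h11
      have h3 := congrFun (ha.symm.trans ha0) (c.succAbove j)
      simpa [pt] using h3
    subst hll
    rcases hl with ⟨h1, h2⟩ | ⟨h1, h2⟩
    · exact Or.inr h2
    · exact Or.inl h1
  refine (Set.encard_le_encard hsub).trans ?_
  refine (Set.encard_insert_le _ _).trans ?_
  rw [Set.encard_singleton]
  norm_num

theorem lonely {m N : ℕ} (e : Ln m N → Pr N) (v : Pt m N) (p : (gr e).Walk v v)
    (hp : p.IsCycle) (a : Sym2 (Pt m N)) (ha : a ∈ p.edges) :
    ∃ a' ∈ p.edges, a' ≠ a ∧ col m N a' = col m N a := by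
  classical
  by_contra hcon
  push Not at hcon
  induction a using Sym2.ind with
  | _ x x' =>
  have hadj : (gr e).Adj x x' := p.adj_of_mem_edges ha
  obtain ⟨c, hc⟩ : ∃ c, col m N s(x, x') = {c} := by
    obtain ⟨l, ⟨h1, h2⟩ | ⟨h1, h2⟩⟩ := hadj
    · exact ⟨l.1, by rw [h1, h2, col_edge l (e l).2]⟩
    · exact ⟨l.1, by rw [h1, h2, col_edge l (e l).2.symm]⟩
  have hxc : x c ≠ x' c := by
    have : c ∈ col m N s(x, x') := by rw [hc]; rfl
    exact this
  -- the graph of the edges of the cycle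
  let H : SimpleGraph (Pt m N) := SimpleGraph.fromEdgeSet {b | b ∈ p.edges}
  have hH : ∀ b ∈ p.edges, b ∈ H.edgeSet := by
    intro b hb
    rw [SimpleGraph.edgeSet_fromEdgeSet]
    refine ⟨hb, ?_⟩
    exact (gr e).not_isDiag_of_mem_edgeSet (p.edges_subset_edgeSet hb)
  have hcyc : ∃ (u : Pt m N) (q : H.Walk u u), q.IsCycle ∧ s(x, x') ∈ q.edges :=
    ⟨v, p.transfer H hH, hp.transfer hH, by rw [SimpleGraph.Walk.edges_transfer]; exact ha⟩
  have hr := (SimpleGraph.adj_and_reachable_delete_edges_iff_exists_cycle.mpr hcyc).2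
  have key : ∀ u w : Pt m N, (H \ SimpleGraph.fromEdgeSet {s(x, x')}).Adj u w → u c = w c := by
    intro u w huw
    rw [SimpleGraph.sdiff_adj, SimpleGraph.fromEdgeSet_adj, SimpleGraph.fromEdgeSet_adj] at huw
    obtain ⟨⟨h1, h2⟩, h3⟩ := huw
    have h4 : s(u, w) ≠ s(x, x') := fun h => h3 ⟨h, h2⟩
    by_contra hne
    have h5 : (gr e).Adj u w := p.adj_of_mem_edges h1
    obtain ⟨c', hc'⟩ : ∃ c', col m N s(u, w) = {c'} := by
      obtain ⟨l, ⟨h1, h2⟩ | ⟨h1, h2⟩⟩ := h5
      · exact ⟨l.1, by rw [h1, h2, col_edge l (e l).2]⟩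
      · exact ⟨l.1, by rw [h1, h2, col_edge l (e l).2.symm]⟩
    have h6 : c ∈ col m N s(u, w) := hne
    have h7 : c = c' := by rw [hc'] at h6; exact h6
    exact hcon s(u, w) h1 h4 (by rw [hc', hc, h7])
  have hreach : ∀ u w : Pt m N, (H \ SimpleGraph.fromEdgeSet {s(x, x')}).Reachable u w →
      u c = w c := by
    intro u w huw
    obtain ⟨q⟩ := huw
    induction q with
    | nil => rfl
    | cons h _ ih => exact (key _ _ h).trans ih
  exact hxc (hreach x x' hr)

theorem noLonely {m N : ℕ} (e : Ln m N → Pr N) : NoLonelyColour (gr e) :=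
  ⟨_, col m N, atMostTwo e, fun v p hp a ha => lonely e v p hp a ha⟩

theorem noPied {m N : ℕ} (e : Ln m N → Pr N) : NoPiedCircuit (gr e) := by
  refine ⟨_, col m N, atMostTwo e, fun v p hp => ?_⟩
  obtain ⟨a, ha⟩ : ∃ a, a ∈ p.edges := by
    have h3 := hp.three_le_length
    rw [← SimpleGraph.Walk.length_edges] at h3
    exact List.exists_mem_of_length_pos (by omega)
  obtain ⟨a', ha', hne, hc⟩ := lonely e v p hp a ha
  exact ⟨a', ha', a, ha, hne, hc⟩

/-- numbers of bad choices -/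
theorem exists_not_colorable (k : ℕ) : ∃ (m N : ℕ) (e : Ln m N → Pr N), ¬ (gr e).Colorable k := by
  classical
  set N := k + 2 with hN
  set P := Fintype.card (Pr N) with hP
  have hP2 : 2 ≤ P := by
    obtain ⟨a0, a1, h01⟩ : ∃ a0 a1 : Fin N, a0 ≠ a1 :=
      ⟨⟨0, by omega⟩, ⟨1, by omega⟩, by simp⟩
    have h2 : ({⟨(a0, a1), h01⟩, ⟨(a1, a0), h01.symm⟩} : Finset (Pr N)).card = 2 := by
      rw [Finset.card_pair]
      intro h
      have := congrArg (fun q : Pr N => q.1.1) h
      exact h01 this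
    rw [hP, ← h2]
    exact Finset.card_le_univ _
  -- choice of the dimension
  obtain ⟨m, hm⟩ : ∃ m : ℕ, k ^ N * (P - 1) ^ (m + 1) < P ^ (m + 1) := by
    have h1 : (1 : ℝ) < (P : ℝ) / ((P - 1 : ℕ) : ℝ) := by
      rw [one_lt_div (by exact_mod_cast (by omega : 0 < P - 1))]
      exact_mod_cast (by omega : P - 1 < P)
    obtain ⟨n, hn⟩ := pow_unbounded_of_one_lt ((k ^ N : ℕ) : ℝ) h1
    have hpos : (0 : ℝ) < ((P - 1 : ℕ) : ℝ) := by exact_mod_cast (by omega : 0 < P - 1)
    rw [div_pow, lt_div_iff₀ (by positivity)] at hn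
    have hn' : k ^ N * (P - 1) ^ n < P ^ n := by exact_mod_cast hn
    refine ⟨n, ?_⟩
    calc k ^ N * (P - 1) ^ (n + 1) = (k ^ N * (P - 1) ^ n) * (P - 1) := by ring
      _ ≤ (k ^ N * (P - 1) ^ n) * P := Nat.mul_le_mul_left _ (by omega)
      _ < P ^ n * P := Nat.mul_lt_mul_of_pos_right hn' (by omega)
      _ = P ^ (n + 1) := by ring
  refine ⟨m, N, ?_⟩
  by_contra hcon
  push Not at hcon
  -- the choices compatible with a colouring
  let bad : (Pt m N → Fin k) → Finset (Ln m N → Pr N) := fun f =>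
    Fintype.piFinset (fun l => Finset.univ.filter (fun q : Pr N => f (pt l q.1.1) ≠ f (pt l q.1.2)))
  have hbad : ∀ f, (bad f).card ≤ (P - 1) ^ (Fintype.card (Ln m N)) := by
    intro f
    rw [Fintype.card_piFinset]
    have h1 : ∀ l : Ln m N,
        (Finset.univ.filter (fun q : Pr N => f (pt l q.1.1) ≠ f (pt l q.1.2))).card ≤ P - 1 := by
      intro l
      obtain ⟨a, b, hab, hf⟩ := Fintype.exists_ne_map_eq_of_card_lt (fun a : Fin N => f (pt l a))
        (by simp [hN])
      have h2 : (Finset.univ.filter (fun q : Pr N => f (pt l q.1.1) ≠ f (pt l q.1.2))) ⊆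
          Finset.univ.erase ⟨(a, b), hab⟩ := by
        intro q hq
        rw [Finset.mem_filter] at hq
        rw [Finset.mem_erase]
        refine ⟨?_, Finset.mem_univ _⟩
        rintro rfl
        exact hq.2 hf
      have h3 := Finset.card_le_card h2
      rw [Finset.card_erase_of_mem (Finset.mem_univ _), Finset.card_univ] at h3
      exact h3
    calc ∏ l : Ln m N, (Finset.univ.filter
          (fun q : Pr N => f (pt l q.1.1) ≠ f (pt l q.1.2))).card
        ≤ ∏ _l : Ln m N, (P - 1) := Finset.prod_le_prod' (fun l _ => h1 l)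
      _ = (P - 1) ^ (Fintype.card (Ln m N)) := by
          rw [Finset.prod_const, Finset.card_univ]
  have hcover : (Finset.univ : Finset (Ln m N → Pr N)) ⊆ Finset.univ.biUnion bad := by
    intro e _
    obtain ⟨f⟩ := hcon e
    rw [Finset.mem_biUnion]
    refine ⟨fun x => f x, Finset.mem_univ _, ?_⟩
    rw [Fintype.mem_piFinset]
    intro l
    rw [Finset.mem_filter]
    refine ⟨Finset.mem_univ _, ?_⟩
    exact f.valid ⟨l, Or.inl ⟨rfl, rfl⟩⟩
  have hcount : P ^ (Fintype.card (Ln m N)) ≤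
      k ^ (Fintype.card (Pt m N)) * (P - 1) ^ (Fintype.card (Ln m N)) := by
    have h1 := Finset.card_le_card hcover
    rw [Finset.card_univ, Fintype.card_fun] at h1
    refine h1.trans (Finset.card_biUnion_le.trans ?_)
    refine (Finset.sum_le_sum (fun f _ => hbad f)).trans ?_
    rw [Finset.sum_const, Finset.card_univ, Fintype.card_fun, Fintype.card_fin, smul_eq_mul]
  have hL : Fintype.card (Ln m N) = (m + 1) * N ^ m := by
    simp [Ln]
  have hV : Fintype.card (Pt m N) = N * N ^ m := by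
    simp [Pt, pow_succ, mul_comm]
  rw [hL, hV, pow_mul, pow_mul, pow_mul, ← mul_pow] at hcount
  have hNm : N ^ m ≠ 0 := pow_ne_zero _ (by omega)
  have := (Nat.pow_le_pow_iff_left hNm).mp hcount
  omega

theorem main (k : ℕ) :
    ∃ (V : Type) (_ : Finite V) (X : SimpleGraph V),
      NoLonelyColour X ∧ NoPiedCircuit X ∧ (k : ℕ∞) < X.chromaticNumber := by
  obtain ⟨m, N, e, he⟩ := exists_not_colorable k
  refine ⟨Pt m N, inferInstance, gr e, noLonely e, noPied e, ?_⟩
  rw [← not_le, SimpleGraph.chromaticNumber_le_iff_colorable]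
  exact he

end Pool.Agent.H1.Lonely
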